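import Pool.Agent.H2.KM.Targets

set_option autoImplicit false

namespace Pool.Agent.H19.KM

open Matrix Pool.Agent.H2.NL Pool.Agent.H2.KM Pool.Agent.H64.CC

private theorem exs_cons {α : Type} (a : α) (s : List α) :
    ∀ js : List ℕ, exs (js.map (· + 1)) (a :: s) = a :: exs js s
  | [] => rfl
  | j :: js => by
    show ex (j + 1) (exs (js.map (· + 1)) (a :: s)) = a :: ex j (exs js s)
    rw [exs_cons a s js]
    rfl

theorem pf_RCH : T_RCH := by
  intro α s s' h
  induction h with
  | nil => exact ⟨[], by simp, rfl⟩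
  | cons a _ ih =>
    obtain ⟨js, h1, h2⟩ := ih
    refine ⟨js.map (· + 1), ?_, ?_⟩
    · intro j hj
      obtain ⟨i, hi, rfl⟩ := List.mem_map.1 hj
      have := h1 i hi
      rw [List.length_cons]
      omega
    · rw [exs_cons, h2]
  | swap x y l =>
    refine ⟨[0], ?_, rfl⟩
    intro j hj
    rw [List.mem_singleton] at hj
    subst hj
    simp
  | trans h _ ih₁ ih₂ =>
    obtain ⟨js, h1, h2⟩ := ih₁
    obtain ⟨js', h3, h4⟩ := ih₂
    refine ⟨js' ++ js, ?_, ?_⟩
    · intro j hj
      rcases List.mem_append.1 hj with h5 | h5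
      · have := h3 j h5
        rw [h.length_eq]
        exact this
      · exact h1 j h5
    · unfold exs at h2 h4 ⊢
      rw [List.foldr_append, h2, h4]

end Pool.Agent.H19.KM
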