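import Pool.Agent.H2.KM.Targets

set_option autoImplicit false

namespace Pool.Agent.H19.KM

open Matrix Pool.Agent.H2.NL Pool.Agent.H2.KM Pool.Agent.H64.CC

theorem pf_SPH (h1 : T_SEL) : T_SPH := by
  intro K _ I _ _ o n
  obtain ⟨hs1, hs2, hs3⟩ := h1 K I o
  induction n with
  | zero =>
    intro h _ u hu
    have hu' : u = [] := List.length_eq_zero_iff.1 hu
    subst hu'
    rw [Fintype.sum_subsingleton _ (List.Vector.nil : List.Vector I 0)]
    show sp o (1 : Matrix I I K) [] [] * h [] = _
    simp [sp]
  | succ n ih =>
    intro h hh u hu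
    match u, hu with
    | a :: u', hu =>
      have hu' : u'.length = n := by simpa using hu
      obtain ⟨φ, hφ⟩ : ∃ φ : I → List I → K, ∀ b r, φ b r =
          (1 : Matrix I I K) a b * sp o (1 : Matrix I I K) u' r * h (b :: r) :=
        ⟨fun b r => (1 : Matrix I I K) a b * sp o (1 : Matrix I I K) u' r * h (b :: r),
          fun _ _ => rfl⟩
      have key : ∀ w : List.Vector I (n + 1), sp o (1 : Matrix I I K) (a :: u') w.1 * h w.1 =
          ((sel K o w.1).map fun x => φ x.2.1 x.2.2).sum := by
        intro w
        show ((sel K o w.1).map fun x => x.1 * (1 : Matrix I I K) a x.2.1 *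
          sp o (1 : Matrix I I K) u' x.2.2).sum * h w.1 = _
        rw [← List.sum_map_mul_right]
        congr 1
        refine List.map_congr_left fun x hx => ?_
        have e1 := hs2 (n + 1) h hh w.1 w.2 x hx
        have e2 := ((hs1 w.1).2 x hx).1
        rw [e1, hφ]
        calc x.1 * (1 : Matrix I I K) a x.2.1 * sp o (1 : Matrix I I K) u' x.2.2 *
              (x.1 * h (x.2.1 :: x.2.2)) =
            (x.1 * x.1) * ((1 : Matrix I I K) a x.2.1 * sp o (1 : Matrix I I K) u' x.2.2 *
              h (x.2.1 :: x.2.2)) := by ring
          _ = _ := by rw [e2, one_mul]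
      refine (Finset.sum_congr rfl fun w _ => key w).trans ?_
      refine (hs3 n φ).trans ?_
      have hsy : Symm o n fun r => h (a :: r) := by
        intro j hj r hr
        exact hh (j + 1) (by omega) (a :: r) (by simp [hr])
      have e3 := ih (fun r => h (a :: r)) hsy u' hu'
      rw [Finset.sum_eq_single a]
      · have e4 : ∀ w : List.Vector I n, φ a w.1 =
            sp o (1 : Matrix I I K) u' w.1 * h (a :: w.1) := by
          intro w
          rw [hφ, Matrix.one_apply_eq, one_mul]
        rw [Finset.sum_congr rfl fun w _ => e4 w, e3, Nat.factorial_succ]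
        push_cast
        ring
      · intro b _ hb
        refine Finset.sum_eq_zero fun w _ => ?_
        rw [hφ, Matrix.one_apply_ne (Ne.symm hb), zero_mul, zero_mul]
      · intro hn
        exact absurd (Finset.mem_univ a) hn

end Pool.Agent.H19.KM
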