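import Pool.Agent.H2.KM.Targets

set_option autoImplicit false

namespace Pool.Agent.H19.KM

open Matrix Pool.Agent.H2.NL Pool.Agent.H2.KM Pool.Agent.H64.CC

section

variable {K : Type} [Field K] {I : Type} [Fintype I] [DecidableEq I] (o : I → Bool)

/-- the word with two letters exchanged -/
private def exv (n j : ℕ) (u : List.Vector I n) : List.Vector I n :=
  ⟨ex j u.1, by rw [ex_length]; exact u.2⟩

private theorem Px_mul (n j : ℕ) (X : Matrix (List.Vector I n) (List.Vector I n) K)
    (u w : List.Vector I n) :
    (Px K o n j * X) u w = sgx K o j u.1 * X (exv n j u) w := by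
  rw [Matrix.mul_apply, Finset.sum_eq_single (exv n j u)]
  · show (if ex j u.1 = ex j u.1 then sgx K o j u.1 else 0) * _ = _
    rw [if_pos rfl]
  · intro v _ hv
    show (if ex j u.1 = v.1 then sgx K o j u.1 else 0) * _ = _
    rw [if_neg, zero_mul]
    intro h
    exact hv (Subtype.ext h.symm)
  · intro h
    exact absurd (Finset.mem_univ _) h

private theorem mul_Px (n j : ℕ) (X : Matrix (List.Vector I n) (List.Vector I n) K)
    (u w : List.Vector I n) :
    (X * Px K o n j) u w = sgx K o j w.1 * X u (exv n j w) := by
  rw [Matrix.mul_apply, Finset.sum_eq_single (exv n j w)]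
  · show _ * (if ex j (ex j w.1) = w.1 then sgx K o j (ex j w.1) else 0) = _
    rw [if_pos (ex_ex j w.1), sgx_ex, mul_comm]
  · intro v _ hv
    show _ * (if ex j v.1 = w.1 then sgx K o j v.1 else 0) = _
    rw [if_neg, mul_zero]
    intro h
    refine hv (Subtype.ext ?_)
    show v.1 = ex j w.1
    rw [← h, ex_ex]
  · intro h
    exact absurd (Finset.mem_univ _) h

/-- products of exchanges -/
private def Pxs (K : Type) [Field K] {I : Type} [Fintype I] [DecidableEq I] (o : I → Bool)
    (n : ℕ) (js : List ℕ) : Matrix (List.Vector I n) (List.Vector I n) K :=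
  js.foldr (fun j M => Px K o n j * M) 1

private theorem Pxs_apply (n : ℕ) (w : List.Vector I n) : ∀ (js : List ℕ) (u : List.Vector I n),
    Pxs K o n js u w = sws o js (fun v => if v = w.1 then (1 : K) else 0) u.1
  | [], u => by
    show (1 : Matrix (List.Vector I n) (List.Vector I n) K) u w = if u.1 = w.1 then (1 : K) else 0
    rw [Matrix.one_apply]
    by_cases h : u = w
    · rw [if_pos h, if_pos (by rw [h])]
    · rw [if_neg h, if_neg fun h' => h (Subtype.ext h')]
  | j :: js, u => by
    show (Px K o n j * Pxs K o n js) u w = sw o j (sws o js _) u.1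
    rw [Px_mul, sw_eq, Pxs_apply n w js]
    rfl

/-- the operator is linear -/
private def opL (η : Matrix I I K) (n : ℕ) : (List I → K) →ₗ[K]
    Matrix (List.Vector I n) (List.Vector I n) K where
  toFun t := op η n t
  map_add' t t' := by
    ext u v
    show opw η n (t + t') u.1 v.1 = opw η n t u.1 v.1 + opw η n t' u.1 v.1
    unfold opw
    rw [← Finset.sum_add_distrib]
    refine Finset.sum_congr rfl fun x _ => ?_
    rw [Pi.add_apply, add_mul]
  map_smul' c t := by
    ext u v
    show opw η n (c • t) u.1 v.1 = c * opw η n t u.1 v.1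
    unfold opw
    rw [Finset.mul_sum]
    refine Finset.sum_congr rfl fun x _ => ?_
    rw [Pi.smul_apply, smul_eq_mul, mul_assoc]

end

theorem pf_SPZ (h1 : T_SYM) (h2 : T_SYL) (h3 : T_SYR) (h4 : T_SPH) (h5 : T_OPS) (h6 : T_OPG)
    (h7 : T_IDS) : T_SPZ := by
  intro K _ _ I _ _ o η ω A hA hηω hωη hη n
  have hL : ∀ j, Px K o n j * Sp o (1 : Matrix I I K) n = Sp o (1 : Matrix I I K) n := by
    intro j
    ext u w
    rw [Px_mul]
    have e := h3 K I I o o (1 : Matrix I I K) (fun a b hab => by
      by_cases h : a = b
      · rw [h]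
      · exact absurd (Matrix.one_apply_ne h) hab) w.1 j u.1
    rw [sw_eq] at e
    exact e
  have hR : ∀ j, Sp o (1 : Matrix I I K) n * Px K o n j = Sp o (1 : Matrix I I K) n := by
    intro j
    ext u w
    rw [mul_Px]
    have e := h2 K I I o (1 : Matrix I I K) u.1 j w.1
    rw [sw_eq] at e
    exact e
  refine ⟨?_, fun j => ⟨hL j, hR j⟩, ?_⟩
  · ext u w
    rw [Matrix.mul_apply]
    exact h4 K I o n (fun v => sp o (1 : Matrix I I K) v w.1) (fun j _ v _ =>
      h3 K I I o o (1 : Matrix I I K) (fun a b hab => by
        by_cases h : a = b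
        · rw [h]
        · exact absurd (Matrix.one_apply_ne h) hab) w.1 j v) u.1 u.2
  · obtain ⟨L, hnil, hval, hsym⟩ := h1 K I o n
    obtain ⟨-, -, hid, -, -⟩ := h6 K I η ω hηω hωη n
    have hidA : idt ω n ∈ A n := h7 K I o η ω A hA ω hA.om n
    -- the operators of the classes
    have hop : ∀ js : List ℕ, (∀ j ∈ js, j + 2 ≤ n) →
        op η n (sws o js (idt ω n)) = Pxs K o n js ∧ sws o js (idt ω n) ∈ A n := by
      intro js
      induction js with
      | nil =>
        intro _
        exact ⟨hid, hidA⟩
      | cons j js ih =>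
        intro hj
        obtain ⟨e1, e2⟩ := ih fun i hi => hj i (List.mem_cons_of_mem _ hi)
        have hj' : j + 2 ≤ n := hj j List.mem_cons_self
        refine ⟨?_, hA.sw n j _ e2 (by omega)⟩
        show op η n (sw o j (sws o js (idt ω n))) = Px K o n j * Pxs K o n js
        rw [(h5 K I o η hη n j (sws o js (idt ω n)) hj').1, e1]
    obtain ⟨M, hM⟩ : ∃ M : Matrix (List.Vector I n) (List.Vector I n) K,
      M = (L.map fun js => Pxs K o n js).sum := ⟨_, rfl⟩
    obtain ⟨t0, ht0⟩ : ∃ t0 : List I → K,
      t0 = (L.map fun js => sws o js (idt ω n)).sum := ⟨_, rfl⟩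
    have ht0A : t0 ∈ A n := by
      rw [ht0]
      refine (A n).toAddSubmonoid.list_sum_mem ?_
      intro x hx
      obtain ⟨js, hjs, rfl⟩ := List.mem_map.1 hx
      exact (hop js (hval js hjs)).2
    have hopt : op η n t0 = M := by
      have e1 : opL η n t0 = (L.map fun js => opL η n (sws o js (idt ω n))).sum := by
        rw [ht0, map_list_sum, List.map_map]
        rfl
      rw [hM]
      refine e1.trans ?_
      congr 1
      exact List.map_congr_left fun js hjs => (hop js (hval js hjs)).1
    have hSjs : ∀ js : List ℕ, Sp o (1 : Matrix I I K) n * Pxs K o n js =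
        Sp o (1 : Matrix I I K) n := by
      intro js
      induction js with
      | nil => exact mul_one _
      | cons j js ih =>
        show Sp o (1 : Matrix I I K) n * (Px K o n j * Pxs K o n js) = _
        rw [← mul_assoc, hR, ih]
    have hSM : Sp o (1 : Matrix I I K) n * M = (L.length : K) • Sp o (1 : Matrix I I K) n := by
      rw [hM, ← List.sum_map_mul_left]
      have e : (L.map fun js => Sp o (1 : Matrix I I K) n * Pxs K o n js) =
          L.map fun _ => Sp o (1 : Matrix I I K) n := List.map_congr_left fun js _ => hSjs js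
      rw [e, List.map_const', List.sum_replicate, ← Nat.cast_smul_eq_nsmul K]
    have hSM' : Sp o (1 : Matrix I I K) n * M = (n.factorial : K) • M := by
      ext u w
      rw [Matrix.mul_apply]
      have eM : ∀ v : List.Vector I n, M v w =
          (L.map fun js => sws o js (fun v => if v = w.1 then (1 : K) else 0) v.1).sum := by
        intro v
        have e2 : ∀ L' : List (List ℕ), (L'.map fun js => Pxs K o n js).sum v w =
            (L'.map fun js => sws o js (fun v => if v = w.1 then (1 : K) else 0) v.1).sum := by
          intro L'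
          induction L' with
          | nil => rfl
          | cons js L' ih =>
            rw [List.map_cons, List.sum_cons, List.map_cons, List.sum_cons, Matrix.add_apply, ih,
              Pxs_apply]
        rw [hM]
        exact e2 L
      have e3 := h4 K I o n _ (hsym fun v => if v = w.1 then (1 : K) else 0) u.1 u.2
      rw [Matrix.smul_apply, smul_eq_mul, eM u, ← e3]
      refine Finset.sum_congr rfl fun v _ => ?_
      rw [eM v]
      rfl
    have hLne : (L.length : K) ≠ 0 := by
      have : L.length ≠ 0 := fun h => by
        rw [List.length_eq_zero_iff] at h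
        rw [h] at hnil
        exact absurd hnil (by simp)
      exact_mod_cast this
    refine ⟨((n.factorial : ℚ) / (L.length : ℚ)) • t0, (A n).smul_mem _ ht0A, ?_⟩
    have e4 : ((n.factorial : ℚ) / (L.length : ℚ)) • t0 =
        ((n.factorial : K) / (L.length : K)) • t0 := by
      funext w
      rw [Pi.smul_apply, Pi.smul_apply, Rat.smul_def, smul_eq_mul]
      push_cast
      rfl
    rw [e4]
    have e5 : op η n (((n.factorial : K) / (L.length : K)) • t0) =
        ((n.factorial : K) / (L.length : K)) • op η n t0 :=
      (opL η n).map_smul _ _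
    rw [e5, hopt, div_eq_inv_mul, mul_smul, ← hSM', hSM, smul_smul, inv_mul_cancel₀ hLne, one_smul]

end Pool.Agent.H19.KM
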